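import Mathlib

set_option autoImplicit false

namespace Pool.Agent.H791R3.AT

open MeasureTheory Filter Topology Set Complex

/-- the Herglotz function -/
noncomputable def F (m : ℕ) (x : Fin m → ℝ) (z : ℂ) : ℂ := (∑ i, ((x i : ℂ) - z)⁻¹) / m

noncomputable def R (m : ℕ) (x : Fin m → ℝ) (t : ℝ) (z : ℂ) : ℂ := F m x z / (F m x z + t * I)

noncomputable def G (m : ℕ) (x : Fin m → ℝ) (t α β : ℝ) (z : ℂ) : ℂ :=
  R m x t z * ((z - α) * (β - z))

lemma F_im_nonneg (m : ℕ) (x : Fin m → ℝ) (z : ℂ) (hz : 0 ≤ z.im) : 0 ≤ (F m x z).im := by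
  unfold F
  have h1 : ((∑ i, ((x i : ℂ) - z)⁻¹) / (m : ℂ)).im = (∑ i, (((x i : ℂ) - z)⁻¹).im) / m := by
    rw [Complex.div_natCast_im, Complex.im_sum]
  rw [h1]
  apply div_nonneg _ (Nat.cast_nonneg m)
  apply Finset.sum_nonneg
  intro i _
  rw [Complex.inv_im]
  apply div_nonneg
  · simp [hz]
  · exact Complex.normSq_nonneg _

lemma F_norm_le (m : ℕ) (hm : 0 < m) (x : Fin m → ℝ) (z : ℂ) (hz : 0 < z.im) :
    ‖F m x z‖ ≤ 1 / z.im := by
  unfold F
  have hm' : (0 : ℝ) < m := by exact_mod_cast hm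
  rw [norm_div, Complex.norm_natCast, div_le_iff₀ hm']
  calc ‖∑ i, ((x i : ℂ) - z)⁻¹‖ ≤ ∑ i, ‖((x i : ℂ) - z)⁻¹‖ := norm_sum_le _ _
    _ ≤ ∑ _i : Fin m, 1 / z.im := by
        apply Finset.sum_le_sum
        intro i _
        rw [norm_inv, ← one_div]
        apply one_div_le_one_div_of_le hz
        have := Complex.abs_im_le_norm ((x i : ℂ) - z)
        simp only [sub_im, ofReal_im, zero_sub, abs_neg] at this
        rwa [abs_of_pos hz] at this
    _ = 1 / z.im * m := by simp [mul_comm]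

lemma den_ge (m : ℕ) (x : Fin m → ℝ) (t : ℝ) (ht : 0 < t) (z : ℂ) (hz : 0 ≤ z.im) :
    t ≤ ‖F m x z + t * I‖ := by
  have h0 := F_im_nonneg m x z hz
  have h1 := Complex.abs_im_le_norm (F m x z + t * I)
  have h2 : (F m x z + t * I).im = (F m x z).im + t := by simp
  rw [h2, abs_of_nonneg (by linarith)] at h1
  linarith

lemma R_norm_le_one (m : ℕ) (x : Fin m → ℝ) (t : ℝ) (ht : 0 < t) (z : ℂ) (hz : 0 ≤ z.im) :
    ‖R m x t z‖ ≤ 1 := by
  unfold R
  have h0 := F_im_nonneg m x z hz
  have h1 := den_ge m x t ht z hz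
  rw [norm_div, div_le_one (by linarith)]
  rw [Complex.norm_def, Complex.norm_def]
  apply Real.sqrt_le_sqrt
  rw [Complex.normSq_apply, Complex.normSq_apply]
  simp only [add_re, mul_re, ofReal_re, I_re, mul_zero, ofReal_im, I_im, mul_one, sub_self,
    add_zero, add_im, mul_im, zero_mul]
  nlinarith

lemma R_norm_le (m : ℕ) (hm : 0 < m) (x : Fin m → ℝ) (t : ℝ) (ht : 0 < t) (z : ℂ)
    (hz : 0 < z.im) : ‖R m x t z‖ ≤ 1 / z.im / t := by
  unfold R
  have h1 := den_ge m x t ht z hz.le
  rw [norm_div]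
  exact div_le_div₀ (by positivity) (F_norm_le m hm x z hz) ht h1

lemma G_diff (m : ℕ) (x : Fin m → ℝ) (t : ℝ) (ht : 0 < t) (α β : ℝ) (z : ℂ)
    (hz : 0 ≤ z.im) (hx : ∀ i, (x i : ℂ) - z ≠ 0) : DifferentiableAt ℂ (G m x t α β) z := by
  have hden : F m x z + t * I ≠ 0 := by
    intro h
    have := den_ge m x t ht z hz
    rw [h, norm_zero] at this
    linarith
  have hF : DifferentiableAt ℂ (F m x) z := by
    unfold F
    apply DifferentiableAt.div_const
    apply DifferentiableAt.fun_sum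
    intro i _
    apply DifferentiableAt.fun_inv _ (hx i)
    fun_prop
  unfold G R
  apply DifferentiableAt.mul
  · exact hF.div (hF.add_const _) hden
  · fun_prop

lemma rect_bound (m : ℕ) (hm : 0 < m) (x : Fin m → ℝ) (t : ℝ) (ht : 0 < t) (α β : ℝ)
    (hαβ : α ≤ β) (ε : ℝ) (hε : 0 < ε) (hε1 : ε ≤ 1) :
    ‖∫ E in α..β, G m x t α β (E + ε * I)‖ ≤
      ((β - α) * (β - α + 1) ^ 2 + 2 * (β - α + 1)) / t := by
  have hL : 0 ≤ β - α := by linarith
  have hrect := Complex.integral_boundary_rect_eq_zero_of_differentiableOn (G m x t α β)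
    (α + ε * I) (β + 1 * I) (by
      intro z hz
      apply DifferentiableAt.differentiableWithinAt
      have hz' : 0 < z.im := by
        have h := hz.2
        simp only [add_im, ofReal_im, mul_im, ofReal_re, I_im, mul_one, I_re, mul_zero, add_zero,
          zero_add, one_mul, mem_preimage] at h
        rw [uIcc_of_le hε1] at h
        exact lt_of_lt_of_le hε h.1
      apply G_diff m x t ht α β z hz'.le
      intro i h
      have h2 : ((x i : ℂ) - z).im = 0 := by rw [h]; simp
      simp at h2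
      linarith)
  simp only [add_re, ofReal_re, mul_re, I_re, mul_zero, ofReal_im, I_im, mul_one, sub_self,
    add_zero, add_im, mul_im, zero_add, one_mul, ofReal_one, ofReal_add, one_re, one_im,
    zero_mul, sub_zero, ofReal_zero] at hrect
  have hre : ∫ E in α..β, G m x t α β (E + ε * I) =
      (∫ E in α..β, G m x t α β (E + I)) - I • (∫ y in ε..1, G m x t α β (β + y * I)) +
        I • ∫ y in ε..1, G m x t α β (α + y * I) := by
    linear_combination hrect
  rw [hre]
  have htop : ‖∫ E in α..β, G m x t α β (E + I)‖ ≤ (β - α + 1) ^ 2 / t * |β - α| := by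
    apply intervalIntegral.norm_integral_le_of_norm_le_const
    intro E hE
    rw [uIoc_of_le hαβ] at hE
    unfold G
    rw [norm_mul, norm_mul]
    have h1 : ‖R m x t (E + I)‖ ≤ 1 / t := by
      have := R_norm_le m hm x t ht (E + I) (by simp)
      simpa using this
    have h2 : ‖(E + I - α : ℂ)‖ ≤ β - α + 1 := by
      calc ‖(E + I - α : ℂ)‖ = ‖((E - α : ℝ) : ℂ) + I‖ := by congr 1; push_cast; ring
        _ ≤ ‖((E - α : ℝ) : ℂ)‖ + ‖I‖ := norm_add_le _ _
        _ = (E - α) + 1 := by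
            rw [Complex.norm_real, Real.norm_of_nonneg (by linarith [hE.1]), Complex.norm_I]
        _ ≤ _ := by linarith [hE.2]
    have h3 : ‖(β - (E + I) : ℂ)‖ ≤ β - α + 1 := by
      calc ‖(β - (E + I) : ℂ)‖ = ‖((β - E : ℝ) : ℂ) - I‖ := by congr 1; push_cast; ring
        _ ≤ ‖((β - E : ℝ) : ℂ)‖ + ‖I‖ := norm_sub_le _ _
        _ = (β - E) + 1 := by
            rw [Complex.norm_real, Real.norm_of_nonneg (by linarith [hE.2]), Complex.norm_I]
        _ ≤ _ := by linarith [hE.1]
    calc ‖R m x t (E + I)‖ * (‖(E + I - α : ℂ)‖ * ‖(β - (E + I) : ℂ)‖)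
        ≤ (1 / t) * ((β - α + 1) * (β - α + 1)) := by gcongr
      _ = (β - α + 1) ^ 2 / t := by ring
  have hside : ∀ y ∈ Ioc ε 1, ‖G m x t α β (β + y * I)‖ ≤ (β - α + 1) / t ∧
      ‖G m x t α β (α + y * I)‖ ≤ (β - α + 1) / t := by
    intro y hy
    have hy0 : 0 < y := lt_trans hε hy.1
    constructor
    · unfold G
      rw [norm_mul, norm_mul]
      have h1 : ‖R m x t (β + y * I)‖ ≤ 1 / y / t := by
        have := R_norm_le m hm x t ht (β + y * I) (by simpa using hy0)
        simpa using this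
      have h2 : ‖(β + y * I - α : ℂ)‖ ≤ β - α + 1 := by
        calc ‖(β + y * I - α : ℂ)‖ = ‖((β - α : ℝ) : ℂ) + y * I‖ := by congr 1; push_cast; ring
          _ ≤ ‖((β - α : ℝ) : ℂ)‖ + ‖(y * I : ℂ)‖ := norm_add_le _ _
          _ = (β - α) + y := by
              rw [Complex.norm_real, Real.norm_of_nonneg hL, norm_mul, Complex.norm_I,
                Complex.norm_real, Real.norm_of_nonneg hy0.le, mul_one]
          _ ≤ _ := by linarith [hy.2]
      have h3 : ‖(β - (β + y * I) : ℂ)‖ = y := by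
        have : (β - (β + y * I) : ℂ) = -(y * I) := by ring
        rw [this, norm_neg, norm_mul, Complex.norm_I, Complex.norm_real,
          Real.norm_of_nonneg hy0.le, mul_one]
      rw [h3]
      calc ‖R m x t (β + y * I)‖ * (‖(β + y * I - α : ℂ)‖ * y)
          ≤ (1 / y / t) * ((β - α + 1) * y) := by gcongr
        _ = (β - α + 1) / t := by field_simp
    · unfold G
      rw [norm_mul, norm_mul]
      have h1 : ‖R m x t (α + y * I)‖ ≤ 1 / y / t := by
        have := R_norm_le m hm x t ht (α + y * I) (by simpa using hy0)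
        simpa using this
      have h2 : ‖(β - (α + y * I) : ℂ)‖ ≤ β - α + 1 := by
        calc ‖(β - (α + y * I) : ℂ)‖ = ‖((β - α : ℝ) : ℂ) - y * I‖ := by congr 1; push_cast; ring
          _ ≤ ‖((β - α : ℝ) : ℂ)‖ + ‖(y * I : ℂ)‖ := norm_sub_le _ _
          _ = (β - α) + y := by
              rw [Complex.norm_real, Real.norm_of_nonneg hL, norm_mul, Complex.norm_I,
                Complex.norm_real, Real.norm_of_nonneg hy0.le, mul_one]
          _ ≤ _ := by linarith [hy.2]
      have h3 : ‖(α + y * I - α : ℂ)‖ = y := by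
        have : (α + y * I - α : ℂ) = (y * I) := by ring
        rw [this, norm_mul, Complex.norm_I, Complex.norm_real,
          Real.norm_of_nonneg hy0.le, mul_one]
      rw [h3]
      calc ‖R m x t (α + y * I)‖ * (y * ‖(β - (α + y * I) : ℂ)‖)
          ≤ (1 / y / t) * (y * (β - α + 1)) := by gcongr
        _ = (β - α + 1) / t := by field_simp
  have hs1 : ‖∫ y in ε..1, G m x t α β (β + y * I)‖ ≤ (β - α + 1) / t * |1 - ε| := by
    apply intervalIntegral.norm_integral_le_of_norm_le_const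
    intro y hy
    rw [uIoc_of_le hε1] at hy
    exact (hside y hy).1
  have hs2 : ‖∫ y in ε..1, G m x t α β (α + y * I)‖ ≤ (β - α + 1) / t * |1 - ε| := by
    apply intervalIntegral.norm_integral_le_of_norm_le_const
    intro y hy
    rw [uIoc_of_le hε1] at hy
    exact (hside y hy).2
  have habs : |1 - ε| ≤ 1 := by rw [abs_of_nonneg (by linarith)]; linarith
  have hc : 0 ≤ (β - α + 1) / t := by positivity
  have hs1' := hs1.trans (mul_le_of_le_one_right hc habs)
  have hs2' := hs2.trans (mul_le_of_le_one_right hc habs)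
  rw [abs_of_nonneg hL] at htop
  calc ‖(∫ E in α..β, G m x t α β (E + I)) - I • (∫ y in ε..1, G m x t α β (β + y * I)) +
        I • ∫ y in ε..1, G m x t α β (α + y * I)‖
      ≤ ‖(∫ E in α..β, G m x t α β (E + I))‖ + ‖I • (∫ y in ε..1, G m x t α β (β + y * I))‖ +
        ‖I • ∫ y in ε..1, G m x t α β (α + y * I)‖ := by
          refine (norm_add_le _ _).trans ?_
          gcongr
          exact norm_sub_le _ _
    _ = ‖(∫ E in α..β, G m x t α β (E + I))‖ + ‖(∫ y in ε..1, G m x t α β (β + y * I))‖ +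
        ‖∫ y in ε..1, G m x t α β (α + y * I)‖ := by
          simp only [norm_smul, Complex.norm_I, one_mul]
    _ ≤ (β - α + 1) ^ 2 / t * (β - α) + (β - α + 1) / t + (β - α + 1) / t := by linarith
    _ = _ := by ring


/-- real boundary value -/
noncomputable def Y (m : ℕ) (x : Fin m → ℝ) (E : ℝ) : ℝ := (∑ i, (E - x i)⁻¹) / m

lemma F_real (m : ℕ) (x : Fin m → ℝ) (E : ℝ) : F m x (E : ℂ) = ((-(Y m x E) : ℝ) : ℂ) := by
  unfold F Y
  push_cast
  rw [← neg_div, ← Finset.sum_neg_distrib]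
  congr 1
  apply Finset.sum_congr rfl
  intro i _
  rw [← inv_neg]
  congr 1
  ring

lemma R_real_re (m : ℕ) (x : Fin m → ℝ) (t : ℝ) (ht : 0 < t) (E : ℝ) :
    R m x t (E : ℂ) = (((Y m x E) ^ 2 / ((Y m x E) ^ 2 + t ^ 2) : ℝ) : ℂ) +
      (((Y m x E) * t / ((Y m x E) ^ 2 + t ^ 2) : ℝ) : ℂ) * I := by
  unfold R
  rw [F_real]
  set y := Y m x E
  have h1 : (((-y : ℝ) : ℂ) + t * I) ≠ 0 := by
    intro h
    have := congrArg Complex.im h
    simp at this
    linarith
  have h2 : ((y : ℂ) ^ 2 + (t : ℂ) ^ 2) ≠ 0 := by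
    have : (0 : ℝ) < y ^ 2 + t ^ 2 := by positivity
    exact_mod_cast this.ne'
  rw [div_eq_iff h1]
  push_cast
  field_simp
  ring_nf
  rw [Complex.I_sq]
  ring

lemma G_real_re (m : ℕ) (x : Fin m → ℝ) (t : ℝ) (ht : 0 < t) (α β : ℝ) (E : ℝ) :
    (G m x t α β (E : ℂ)).re =
      (Y m x E) ^ 2 / ((Y m x E) ^ 2 + t ^ 2) * ((E - α) * (β - E)) := by
  unfold G
  rw [R_real_re m x t ht E]
  have : ((E : ℂ) - α) * (β - E) = (((E - α) * (β - E) : ℝ) : ℂ) := by push_cast; ring
  rw [this, Complex.re_mul_ofReal, Complex.add_re, Complex.ofReal_re, Complex.re_ofReal_mul,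
    Complex.I_re]
  ring

lemma G_norm_le (m : ℕ) (x : Fin m → ℝ) (t : ℝ) (ht : 0 < t) (α β : ℝ) (hαβ : α ≤ β) (E ε : ℝ)
    (hE : E ∈ Ioc α β) (hε : 0 ≤ ε) (hε1 : ε ≤ 1) :
    ‖G m x t α β (E + ε * I)‖ ≤ (β - α + 1) ^ 2 := by
  unfold G
  rw [norm_mul, norm_mul]
  have h1 : ‖R m x t (E + ε * I)‖ ≤ 1 := R_norm_le_one m x t ht _ (by simpa using hε)
  have h2 : ‖(E + ε * I - α : ℂ)‖ ≤ β - α + 1 := by
    calc ‖(E + ε * I - α : ℂ)‖ = ‖((E - α : ℝ) : ℂ) + ε * I‖ := by congr 1; push_cast; ring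
      _ ≤ ‖((E - α : ℝ) : ℂ)‖ + ‖(ε * I : ℂ)‖ := norm_add_le _ _
      _ = (E - α) + ε := by
          rw [Complex.norm_real, Real.norm_of_nonneg (by linarith [hE.1]), norm_mul,
            Complex.norm_I, Complex.norm_real, Real.norm_of_nonneg hε, mul_one]
      _ ≤ _ := by linarith [hE.2]
  have h3 : ‖(β - (E + ε * I) : ℂ)‖ ≤ β - α + 1 := by
    calc ‖(β - (E + ε * I) : ℂ)‖ = ‖((β - E : ℝ) : ℂ) - ε * I‖ := by congr 1; push_cast; ring
      _ ≤ ‖((β - E : ℝ) : ℂ)‖ + ‖(ε * I : ℂ)‖ := norm_sub_le _ _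
      _ = (β - E) + ε := by
          rw [Complex.norm_real, Real.norm_of_nonneg (by linarith [hE.2]), norm_mul,
            Complex.norm_I, Complex.norm_real, Real.norm_of_nonneg hε, mul_one]
      _ ≤ _ := by linarith [hE.1]
  calc ‖R m x t (E + ε * I)‖ * (‖(E + ε * I - α : ℂ)‖ * ‖(β - (E + ε * I) : ℂ)‖)
      ≤ 1 * ((β - α + 1) * (β - α + 1)) := by gcongr
    _ = (β - α + 1) ^ 2 := by ring

lemma Y_meas (m : ℕ) (x : Fin m → ℝ) : Measurable (Y m x) := by
  unfold Y
  fun_prop

lemma limit_bound (m : ℕ) (hm : 0 < m) (x : Fin m → ℝ) (t : ℝ) (ht : 0 < t) (α β : ℝ)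
    (hαβ : α ≤ β) :
    ∫ E in α..β, (Y m x E) ^ 2 / ((Y m x E) ^ 2 + t ^ 2) * ((E - α) * (β - E)) ≤
      ((β - α) * (β - α + 1) ^ 2 + 2 * (β - α + 1)) / t := by
  set K := ((β - α) * (β - α + 1) ^ 2 + 2 * (β - α + 1)) / t with hK
  let ε : ℕ → ℝ := fun n => 1 / ((n : ℝ) + 1)
  have hε0 : ∀ n, 0 < ε n := fun n => by simp only [ε]; positivity
  have hε1 : ∀ n, ε n ≤ 1 := fun n => by
    simp only [ε]
    rw [div_le_one (by positivity)]
    linarith [(Nat.cast_nonneg n : (0 : ℝ) ≤ n)]
  have hεt : Tendsto ε atTop (𝓝 0) := tendsto_one_div_add_atTop_nhds_zero_nat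
  have hfin : (Set.range x).Finite := Set.finite_range x
  have hae : ∀ᵐ E : ℝ, E ∉ Set.range x := by
    have : volume (Set.range x) = 0 := hfin.measure_zero _
    exact measure_eq_zero_iff_ae_notMem.mp this
  have hlim : Tendsto (fun n => ∫ E in α..β, (G m x t α β (E + ε n * I)).re) atTop
      (𝓝 (∫ E in α..β, (G m x t α β (E : ℂ)).re)) := by
    apply intervalIntegral.tendsto_integral_filter_of_dominated_convergence
      (fun _ => (β - α + 1) ^ 2)
    · apply Eventually.of_forall
      intro n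
      apply Continuous.aestronglyMeasurable
      apply Complex.continuous_re.comp
      rw [continuous_iff_continuousAt]
      intro E
      have hd := G_diff m x t ht α β ((E : ℂ) + ε n * I) (by simp [(hε0 n).le]) (by
        intro i h
        have h2 : ((x i : ℂ) - (E + ε n * I)).im = 0 := by rw [h]; simp
        simp at h2
        linarith [hε0 n])
      exact ContinuousAt.comp (f := fun E : ℝ => (E : ℂ) + ε n * I) hd.continuousAt
        (by fun_prop)
    · apply Eventually.of_forall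
      intro n
      apply Eventually.of_forall
      intro E hE
      rw [uIoc_of_le hαβ] at hE
      rw [Real.norm_eq_abs]
      exact (Complex.abs_re_le_norm _).trans
        (G_norm_le m x t ht α β hαβ E (ε n) hE (hε0 n).le (hε1 n))
    · exact intervalIntegrable_const
    · filter_upwards [hae] with E hE _
      apply (Complex.continuous_re.tendsto _).comp
      have hd := G_diff m x t ht α β (E : ℂ) (by simp) (by
        intro i h
        apply hE
        refine ⟨i, ?_⟩
        have : (x i : ℂ) = (E : ℂ) := sub_eq_zero.mp h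
        exact_mod_cast this)
      have h2 : Tendsto (fun n => ((E : ℂ) + ε n * I)) atTop (𝓝 (E : ℂ)) := by
        have h3 : Tendsto (fun n => ((E : ℂ) + ((ε n : ℝ) : ℂ) * I)) atTop
            (𝓝 ((E : ℂ) + ((0 : ℝ) : ℂ) * I)) := by
          apply Tendsto.const_add
          apply Tendsto.mul_const
          exact (Complex.continuous_ofReal.tendsto _).comp hεt
        simpa using h3
      exact hd.continuousAt.tendsto.comp h2
  have hle : ∀ n, ∫ E in α..β, (G m x t α β (E + ε n * I)).re ≤ K := by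
    intro n
    have hcont : Continuous (fun E : ℝ => G m x t α β (E + ε n * I)) := by
      rw [continuous_iff_continuousAt]
      intro E
      have hd := G_diff m x t ht α β ((E : ℂ) + ε n * I) (by simp [(hε0 n).le]) (by
        intro i h
        have h2 : ((x i : ℂ) - (E + ε n * I)).im = 0 := by rw [h]; simp
        simp at h2
        linarith [hε0 n])
      exact ContinuousAt.comp (f := fun E : ℝ => (E : ℂ) + ε n * I) hd.continuousAt
        (by fun_prop)
    have h1 : ∫ E in α..β, (G m x t α β (E + ε n * I)).re =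
        (∫ E in α..β, G m x t α β (E + ε n * I)).re := by
      have := intervalIntegral.intervalIntegral_eq_integral_uIoc
        (fun E : ℝ => G m x t α β (E + ε n * I)) α β volume
      rw [intervalIntegral.integral_of_le hαβ, intervalIntegral.integral_of_le hαβ]
      have hint : Integrable (fun E : ℝ => G m x t α β (E + ε n * I))
          (volume.restrict (Ioc α β)) :=
        (hcont.integrableOn_Icc (a := α) (b := β)).mono_set Ioc_subset_Icc_self
      exact integral_re hint
    rw [h1]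
    exact (Complex.re_le_norm _).trans
      (rect_bound m hm x t ht α β hαβ (ε n) (hε0 n) (hε1 n))
  have := le_of_tendsto' hlim hle
  refine le_trans (le_of_eq ?_) this
  apply intervalIntegral.integral_congr
  intro E _
  exact (G_real_re m x t ht α β E).symm

theorem weak_bound (a b : ℝ) : ∃ C : ℝ, 0 < C ∧ ∀ (m : ℕ), 0 < m → ∀ (x : Fin m → ℝ) (t : ℝ),
    0 < t → volume {E | E ∈ Icc a b ∧ t ≤ |(∑ i, (E - x i)⁻¹) / m|} ≤ ENNReal.ofReal (C / t) := by
  by_cases hab : a ≤ b
  swap
  · refine ⟨1, one_pos, fun m hm x t ht => ?_⟩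
    have : {E | E ∈ Icc a b ∧ t ≤ |(∑ i, (E - x i)⁻¹) / m|} = ∅ := by
      ext E
      simp only [Set.mem_ofPred_eq, mem_Icc, mem_empty_iff_false, iff_false]
      rintro ⟨⟨h1, h2⟩, -⟩
      exact hab (h1.trans h2)
    rw [this]
    simp
  set α := a - 1 with hα
  set β := b + 1 with hβ
  have hαβ : α ≤ β := by linarith
  refine ⟨2 * ((β - α) * (β - α + 1) ^ 2 + 2 * (β - α + 1)), ?_, fun m hm x t ht => ?_⟩
  · have : 0 ≤ β - α := by linarith
    positivity
  set A := {E | E ∈ Icc a b ∧ t ≤ |(∑ i, (E - x i)⁻¹) / m|} with hA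
  have hAm : MeasurableSet A := by
    have hY := Y_meas m x
    have : A = Icc a b ∩ {E | t ≤ |Y m x E|} := rfl
    rw [this]
    exact measurableSet_Icc.inter (measurableSet_le measurable_const hY.abs)
  have hAsub : A ⊆ Ioc α β := by
    intro E hE
    exact ⟨by linarith [hE.1.1], by linarith [hE.1.2]⟩
  have hAfin : volume A ≠ ⊤ := by
    apply ne_top_of_le_ne_top _ (measure_mono hAsub)
    simp
  have hlb := limit_bound m hm x t ht α β hαβ
  rw [intervalIntegral.integral_of_le hαβ] at hlb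
  have hmeas : Measurable (fun E => (Y m x E) ^ 2 / ((Y m x E) ^ 2 + t ^ 2) * ((E - α) * (β - E))) := by
    have hY := Y_meas m x
    fun_prop
  have hbd : ∀ E ∈ Ioc α β, 0 ≤ (Y m x E) ^ 2 / ((Y m x E) ^ 2 + t ^ 2) * ((E - α) * (β - E)) ∧
      (Y m x E) ^ 2 / ((Y m x E) ^ 2 + t ^ 2) * ((E - α) * (β - E)) ≤ (β - α) ^ 2 := by
    intro E hE
    have h1 : 0 ≤ E - α := by linarith [hE.1]
    have h2 : 0 ≤ β - E := by linarith [hE.2]
    have h3 : 0 ≤ (Y m x E) ^ 2 / ((Y m x E) ^ 2 + t ^ 2) := by positivity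
    have h4 : (Y m x E) ^ 2 / ((Y m x E) ^ 2 + t ^ 2) ≤ 1 := by
      rw [div_le_one (by positivity)]
      nlinarith [sq_nonneg t]
    refine ⟨by positivity, ?_⟩
    calc (Y m x E) ^ 2 / ((Y m x E) ^ 2 + t ^ 2) * ((E - α) * (β - E))
        ≤ 1 * ((β - α) * (β - α)) := by
          gcongr
          · linarith [hE.2]
          · linarith [hE.1]
      _ = _ := by ring
  have hint : IntegrableOn (fun E => (Y m x E) ^ 2 / ((Y m x E) ^ 2 + t ^ 2) * ((E - α) * (β - E)))
      (Ioc α β) := by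
    have hfin : volume (Ioc α β) ≠ ⊤ := by simp
    refine Measure.integrableOn_of_bounded (M := (β - α) ^ 2) hfin
      hmeas.aestronglyMeasurable ?_
    rw [ae_restrict_iff' measurableSet_Ioc]
    apply Eventually.of_forall
    intro E hE
    rw [Real.norm_of_nonneg (hbd E hE).1]
    exact (hbd E hE).2
  have hkey : (1 / 2) * volume.real A ≤
      ∫ E in Ioc α β, (Y m x E) ^ 2 / ((Y m x E) ^ 2 + t ^ 2) * ((E - α) * (β - E)) := by
    have h1 : (1 / 2) * volume.real A = ∫ E in A, (1 / 2 : ℝ) := by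
      rw [setIntegral_const, smul_eq_mul, mul_comm]
    rw [h1]
    calc ∫ E in A, (1 / 2 : ℝ)
        ≤ ∫ E in A, (Y m x E) ^ 2 / ((Y m x E) ^ 2 + t ^ 2) * ((E - α) * (β - E)) := by
          apply setIntegral_mono_on _ (hint.mono_set hAsub) hAm
          · intro E hE
            have hy : t ≤ |Y m x E| := hE.2
            have hy2 : t ^ 2 ≤ (Y m x E) ^ 2 := by
              rw [← sq_abs (Y m x E)]
              gcongr
            have h3 : 1 / 2 ≤ (Y m x E) ^ 2 / ((Y m x E) ^ 2 + t ^ 2) := by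
              rw [div_le_div_iff₀ (by norm_num) (by positivity)]
              linarith
            have h4 : 1 ≤ E - α := by linarith [hE.1.1]
            have h5 : 1 ≤ β - E := by linarith [hE.1.2]
            have h6 : 1 ≤ (E - α) * (β - E) := by nlinarith
            nlinarith
          · exact (integrableOn_const (hs := hAfin))
      _ ≤ _ := by
          apply setIntegral_mono_set hint
          · rw [EventuallyLE, ae_restrict_iff' measurableSet_Ioc]
            apply Eventually.of_forall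
            intro E hE
            exact (hbd E hE).1
          · exact hAsub.eventuallyLE
  have hfinal : volume.real A ≤ 2 * ((β - α) * (β - α + 1) ^ 2 + 2 * (β - α + 1)) / t := by
    have := hkey.trans hlb
    rw [mul_div_assoc]
    linarith
  rw [← ofReal_measureReal hAfin]
  exact ENNReal.ofReal_le_ofReal hfinal

end Pool.Agent.H791R3.AT
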