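import Pool.Agent.H508R3.AT.Stmts
import Pool.Agent.H791R3.AT.T10core

set_option autoImplicit false

namespace Pool.Agent.H791R3.AT

/-- Task T10 of project 508-AT. -/
theorem t10 : Pool.Agent.H508R3.AT.T10 := fun a b => weak_bound a b

end Pool.Agent.H791R3.AT
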